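import Mathlib

/-!
# Predictive densities for the linear model with unknown variance under alpha-divergence

Definitions for MP_dfd69c_pr.
-/

open MeasureTheory

namespace Pool.Agent.Shrink

noncomputable section

/-- The density at `y` of the normal distribution `N(μ, v I)` on `ℝ^ι`. -/
def normalDensity {ι : Type} [Fintype ι] (μ : ι → ℝ) (v : ℝ) (y : ι → ℝ) : ℝ :=
  (2 * Real.pi * v) ^ (-(Fintype.card ι : ℝ) / 2) *
    Real.exp (-(∑ i, (y i - μ i) ^ 2) / (2 * v))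

/-- The parameter space of `(β, σ²)`: all `β ∈ ℝ^k` and all `σ² > 0`. -/
def params (k : ℕ) : Set ((Fin k → ℝ) × ℝ) := Set.univ ×ˢ Set.Ioi 0

variable {ι κ : Type} [Fintype ι] [Fintype κ] {k : ℕ}

/-- The formal posterior density of `(β, σ²)` at `ψ`, given the observation `y ∼ N(Xβ, σ² I)`,
for the (possibly improper) prior density `prior`. -/
def posterior (X : Matrix ι (Fin k) ℝ) (prior : (Fin k → ℝ) × ℝ → ℝ) (y : ι → ℝ)
    (ψ : (Fin k → ℝ) × ℝ) : ℝ :=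
  normalDensity (X.mulVec ψ.1) ψ.2 y * prior ψ /
    ∫ φ in params k, normalDensity (X.mulVec φ.1) φ.2 y * prior φ

/-- `∫ p^{(1-α)/2}(z | ψ) π(ψ | y) dψ`. -/
def posteriorMean (α : ℝ) (X : Matrix ι (Fin k) ℝ) (X' : Matrix κ (Fin k) ℝ)
    (prior : (Fin k → ℝ) × ℝ → ℝ) (y : ι → ℝ) (z : κ → ℝ) : ℝ :=
  ∫ ψ in params k, normalDensity (X'.mulVec ψ.1) ψ.2 z ^ ((1 - α) / 2) * posterior X prior y ψ

/-- The generalized Bayes predictive density under `D_α` for the prior density `prior`. -/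
def genBayes (α : ℝ) (X : Matrix ι (Fin k) ℝ) (X' : Matrix κ (Fin k) ℝ)
    (prior : (Fin k → ℝ) × ℝ → ℝ) (y : ι → ℝ) (z : κ → ℝ) : ℝ :=
  posteriorMean α X X' prior y z ^ (2 / (1 - α)) /
    ∫ z', posteriorMean α X X' prior y z' ^ (2 / (1 - α))

/-- The function `f_α` for `|α| < 1`. -/
def fAlpha (α t : ℝ) : ℝ := 4 / (1 - α ^ 2) * (1 - t ^ ((1 + α) / 2))

/-- The `α`-divergence `D_α(q, p) = ∫ f_α(q/p) p`. -/
def alphaDivergence (α : ℝ) (q p : (κ → ℝ) → ℝ) : ℝ :=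
  ∫ z, fAlpha α (q z / p z) * p z

/-- The risk at `(β, σ²)` of the predictive density `q`, a function of the observation `y` and of
the future value. -/
def risk (α : ℝ) (X : Matrix ι (Fin k) ℝ) (X' : Matrix κ (Fin k) ℝ)
    (q : (ι → ℝ) → (κ → ℝ) → ℝ) (β : Fin k → ℝ) (v : ℝ) : ℝ :=
  ∫ y, alphaDivergence α (q y) (normalDensity (X'.mulVec β) v) *
    normalDensity (X.mulVec β) v y

/-- `q₁` dominates `q₂`: its risk is nowhere larger and somewhere strictly smaller. -/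
def Dominates (α : ℝ) (X : Matrix ι (Fin k) ℝ) (X' : Matrix κ (Fin k) ℝ)
    (q₁ q₂ : (ι → ℝ) → (κ → ℝ) → ℝ) : Prop :=
  (∀ β v, 0 < v → risk α X X' q₁ β v ≤ risk α X X' q₂ β v) ∧
    ∃ β v, 0 < v ∧ risk α X X' q₁ β v < risk α X X' q₂ β v

/-- The shrinkage prior `(β' X'ᵀ X' β)^{1-k/2} (σ²)^{-c}`. -/
def shrinkagePrior (X' : Matrix κ (Fin k) ℝ) (c : ℝ) (ψ : (Fin k → ℝ) × ℝ) : ℝ :=
  (∑ j, (X'.mulVec ψ.1 j) ^ 2) ^ (1 - (k : ℝ) / 2) * ψ.2 ^ (-c)

/-- The right invariant prior `(σ²)^{-1}`. -/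
def invariantPrior (k : ℕ) (ψ : (Fin k → ℝ) × ℝ) : ℝ := ψ.2⁻¹

/-- The design `X = 1_N ⊗ X'` whose `N m` rows are `N` copies of the rows of `X'`. -/
def repeated (N : ℕ) {m : ℕ} (X' : Matrix (Fin m) (Fin k) ℝ) :
    Matrix (Fin N × Fin m) (Fin k) ℝ := fun p j => X' p.2 j

/-- Assumption (AS1) on the design, with `n = N m` observations and `n > k`. -/
def AS1 (N m k : ℕ) (X' : Matrix (Fin m) (Fin k) ℝ) : Prop :=
  0 < N ∧ 3 ≤ k ∧ k ≤ m ∧ k < N * m ∧ X'.rank = k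

end

end Pool.Agent.Shrink
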