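import Pool.Agent.Helper12.Shrink.Defs

open MeasureTheory Real Set Filter
open scoped ENNReal

namespace Pool.Agent.Shrink

noncomputable section

/-- Squared Euclidean norm. -/
def nsq {ι : Type} [Fintype ι] (x : ι → ℝ) : ℝ := ∑ i, x i ^ 2

lemma nsq_nonneg {ι : Type} [Fintype ι] (x : ι → ℝ) : 0 ≤ nsq x :=
  Finset.sum_nonneg fun _ _ => sq_nonneg _

/-- `(2/√π) ∫_0^{√λ} exp(-z² b²) dz`. -/
def erfInt (l b : ℝ) : ℝ := 2 / √π * ∫ z in (0:ℝ)..√l, Real.exp (-(b ^ 2 * z ^ 2))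

lemma erfInt_le {l b : ℝ} (hb : 0 < b) : erfInt l b ≤ 1 / b := by
  have h1 : ∫ z in Ioi (0:ℝ), Real.exp (-b ^ 2 * z ^ 2) = √(π / b ^ 2) / 2 :=
    integral_gaussian_Ioi (b ^ 2)
  have h2 : √(π / b ^ 2) = √π / b := by
    rw [Real.sqrt_div pi_pos.le, Real.sqrt_sq hb.le]
  have hint : IntegrableOn (fun z : ℝ => Real.exp (-b ^ 2 * z ^ 2)) (Ioi 0) :=
    (integrable_exp_neg_mul_sq (by positivity)).integrableOn
  have h3 : ∫ z in (0:ℝ)..√l, Real.exp (-(b ^ 2 * z ^ 2)) ≤ √(π / b ^ 2) / 2 := by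
    rw [← h1, intervalIntegral.integral_of_le (Real.sqrt_nonneg l)]
    have : (fun z : ℝ => Real.exp (-(b ^ 2 * z ^ 2))) = fun z => Real.exp (-b ^ 2 * z ^ 2) := by
      funext z; ring_nf
    rw [this]
    exact setIntegral_mono_set hint (ae_of_all _ fun _ => (Real.exp_pos _).le)
      (LE.le.eventuallyLE Ioc_subset_Ioi_self)
  unfold erfInt
  have hpi : 0 < √π := Real.sqrt_pos.mpr pi_pos
  calc 2 / √π * ∫ z in (0:ℝ)..√l, Real.exp (-(b ^ 2 * z ^ 2))
      ≤ 2 / √π * (√(π / b ^ 2) / 2) := by gcongr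
    _ = 1 / b := by rw [h2]; field_simp

lemma le_erfInt {l b : ℝ} (hl : 0 < l) (hb : 0 < b) :
    1 / b * (1 - Real.exp (-(l * b ^ 2))) ≤ erfInt l b := by
  have h1 : ∫ z in Ioi (0:ℝ), Real.exp (-b ^ 2 * z ^ 2) = √(π / b ^ 2) / 2 :=
    integral_gaussian_Ioi (b ^ 2)
  have h2 : √(π / b ^ 2) = √π / b := by
    rw [Real.sqrt_div pi_pos.le, Real.sqrt_sq hb.le]
  have hpi : 0 < √π := Real.sqrt_pos.mpr pi_pos
  have hint : Integrable (fun z : ℝ => Real.exp (-b ^ 2 * z ^ 2)) :=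
    integrable_exp_neg_mul_sq (by positivity)
  have e0 : (fun z : ℝ => Real.exp (-(b ^ 2 * z ^ 2))) = fun z => Real.exp (-b ^ 2 * z ^ 2) := by
    funext z; ring_nf
  have hsplit : ∫ z in Ioi (0:ℝ), Real.exp (-b ^ 2 * z ^ 2)
      = (∫ z in (0:ℝ)..√l, Real.exp (-b ^ 2 * z ^ 2)) + ∫ z in Ioi (√l), Real.exp (-b ^ 2 * z ^ 2) := by
    have hd : Disjoint (Ioc (0:ℝ) (√l)) (Ioi (√l)) := by
      rw [Set.disjoint_left]; intro x hx hx'
      exact absurd hx.2 (not_le.mpr hx')
    have := setIntegral_union (μ := volume) hd measurableSet_Ioi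
        (hint.integrableOn (s := Ioc (0:ℝ) (√l))) (hint.integrableOn (s := Ioi (√l)))
    rw [Ioc_union_Ioi_eq_Ioi (Real.sqrt_nonneg l)] at this
    rw [intervalIntegral.integral_of_le (Real.sqrt_nonneg l)]
    exact this
  have htail : ∫ z in Ioi (√l), Real.exp (-b ^ 2 * z ^ 2)
      ≤ Real.exp (-(l * b ^ 2)) * (√(π / b ^ 2) / 2) := by
    rw [← h1, ← integral_const_mul]
    have hshift : ∫ z in Ioi (√l), Real.exp (-b ^ 2 * z ^ 2)
        = ∫ z in Ioi (0:ℝ), Real.exp (-b ^ 2 * (z + √l) ^ 2) := by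
      have := (measurePreserving_add_right volume (√l)).setIntegral_preimage_emb
        (MeasurableEquiv.addRight (√l)).measurableEmbedding
        (fun z => Real.exp (-b ^ 2 * z ^ 2)) (Ioi (√l))
      rw [preimage_add_const_Ioi, sub_self] at this
      exact this.symm
    rw [hshift]
    apply setIntegral_mono_on
    · have := (hint.comp_add_right (√l)).integrableOn (s := Ioi 0)
      exact this
    · exact (hint.const_mul _).integrableOn
    · exact measurableSet_Ioi
    · intro z hz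
      rw [← Real.exp_add]
      apply Real.exp_le_exp.mpr
      have hz' : 0 < z := hz
      have hl2 : √l ^ 2 = l := Real.sq_sqrt hl.le
      have : (z + √l) ^ 2 ≥ z ^ 2 + l := by nlinarith [Real.sqrt_nonneg l]
      nlinarith [sq_nonneg b]
  unfold erfInt
  rw [e0]
  have : ∫ z in (0:ℝ)..√l, Real.exp (-b ^ 2 * z ^ 2)
      ≥ (√(π / b ^ 2) / 2) * (1 - Real.exp (-(l * b ^ 2))) := by
    rw [h1] at hsplit; linarith
  calc 1 / b * (1 - Real.exp (-(l * b ^ 2)))
      = 2 / √π * ((√(π / b ^ 2) / 2) * (1 - Real.exp (-(l * b ^ 2)))) := by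
        rw [h2]; field_simp
    _ ≤ _ := by gcongr

lemma le_erfInt' {l b : ℝ} (hl : 0 < l) :
    2 / √π * √l * Real.exp (-(l * b ^ 2)) ≤ erfInt l b := by
  unfold erfInt
  rw [mul_assoc]
  have hpi : 0 < √π := Real.sqrt_pos.mpr pi_pos
  gcongr
  have hc : Continuous fun z : ℝ => Real.exp (-(b ^ 2 * z ^ 2)) := by fun_prop
  have : ∫ z in (0:ℝ)..√l, Real.exp (-(l * b ^ 2)) ≤ ∫ z in (0:ℝ)..√l, Real.exp (-(b ^ 2 * z ^ 2)) := by
    apply intervalIntegral.integral_mono_on (Real.sqrt_nonneg l)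
    · exact intervalIntegrable_const
    · exact hc.intervalIntegrable _ _
    · intro z hz
      apply Real.exp_le_exp.mpr
      have hl2 : √l ^ 2 = l := Real.sq_sqrt hl.le
      have : z ^ 2 ≤ l := by
        rw [← hl2]; exact pow_le_pow_left₀ hz.1 hz.2 2
      nlinarith [sq_nonneg b]
  simpa using this

lemma rpow_three_halves {x : ℝ} (hx : 0 ≤ x) : x ^ (3/2 : ℝ) = (√x) ^ 3 := by
  rw [Real.sqrt_eq_rpow, ← Real.rpow_natCast, ← Real.rpow_mul hx]
  norm_num

/-- `∫_0^∞ (2/√π) (l/(l+t²))^{3/2} exp(-l t² b²/(l+t²)) dt = erfInt l b`. -/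
lemma lintegral_erfInt {l b : ℝ} (hl : 0 < l) :
    ∫⁻ t in Ioi (0:ℝ), ENNReal.ofReal (2 / √π * (l / (l + t ^ 2)) ^ (3/2 : ℝ) *
      Real.exp (-(l * t ^ 2 / (l + t ^ 2) * b ^ 2))) = ENNReal.ofReal (erfInt l b) := by
  have hpi : 0 < √π := Real.sqrt_pos.mpr pi_pos
  set φ : ℝ → ℝ := fun t => √l * t / √(l + t ^ 2) with hφ
  have hpos : ∀ t : ℝ, 0 < l + t ^ 2 := fun t => by positivity
  have hderφ : ∀ t : ℝ, HasDerivAt φ ((l / (l + t ^ 2)) ^ (3/2 : ℝ)) t := by
    intro t
    have h1 : HasDerivAt (fun t : ℝ => l + t ^ 2) (2 * t) t := by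
      have := (hasDerivAt_pow 2 t).const_add l
      simpa using this
    have h2 := h1.sqrt (hpos t).ne'
    have h3 : HasDerivAt (fun t : ℝ => √l * t) (√l) t := by
      simpa using (hasDerivAt_id t).const_mul (√l)
    have h4 := h3.div h2 (Real.sqrt_pos.mpr (hpos t)).ne'
    refine h4.congr_deriv ?_
    have hs : 0 < √(l + t ^ 2) := Real.sqrt_pos.mpr (hpos t)
    have hs2 : √(l + t ^ 2) ^ 2 = l + t ^ 2 := Real.sq_sqrt (hpos t).le
    have e1 : (l / (l + t ^ 2)) ^ (3/2 : ℝ) = (√l / √(l + t ^ 2)) ^ 3 := by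
      rw [← Real.sqrt_div hl.le]
      exact rpow_three_halves (by have := hpos t; positivity)
    rw [e1]
    have hl2 : √l ^ 2 = l := Real.sq_sqrt hl.le
    field_simp
    rw [hs2]
    nlinarith [hl2]
  set G : ℝ → ℝ := fun t => 2 / √π * ∫ z in (0:ℝ)..φ t, Real.exp (-(b ^ 2 * z ^ 2)) with hG
  have hc : Continuous fun z : ℝ => Real.exp (-(b ^ 2 * z ^ 2)) := by fun_prop
  have hG' : ∀ t : ℝ, HasDerivAt G (2 / √π * (l / (l + t ^ 2)) ^ (3/2 : ℝ) *
      Real.exp (-(l * t ^ 2 / (l + t ^ 2) * b ^ 2))) t := by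
    intro t
    have h1 : HasDerivAt (fun u : ℝ => ∫ z in (0:ℝ)..u, Real.exp (-(b ^ 2 * z ^ 2)))
        (Real.exp (-(b ^ 2 * (φ t) ^ 2))) (φ t) :=
      intervalIntegral.integral_hasDerivAt_right (hc.intervalIntegrable _ _)
        hc.stronglyMeasurable.stronglyMeasurableAtFilter hc.continuousAt
    have h2 := (h1.comp t (hderφ t)).const_mul (2 / √π)
    have e : b ^ 2 * φ t ^ 2 = l * t ^ 2 / (l + t ^ 2) * b ^ 2 := by
      simp only [hφ]
      rw [div_pow, mul_pow, Real.sq_sqrt hl.le, Real.sq_sqrt (hpos t).le]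
      ring
    rw [e] at h2
    refine h2.congr_deriv ?_
    ring
  have hnn : ∀ t : ℝ, 0 ≤ 2 / √π * (l / (l + t ^ 2)) ^ (3/2 : ℝ) *
      Real.exp (-(l * t ^ 2 / (l + t ^ 2) * b ^ 2)) := fun t => by
    have := hpos t; positivity
  have htend : Tendsto φ atTop (nhds (√l)) := by
    have h1 : Tendsto (fun t : ℝ => √(l / t ^ 2 + 1)) atTop (nhds (√(0 + 1))) := by
      apply (Real.continuous_sqrt.tendsto _).comp
      apply Tendsto.add_const
      exact Tendsto.div_atTop tendsto_const_nhds (tendsto_pow_atTop two_ne_zero)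
    have h2 : Tendsto (fun t : ℝ => √l / √(l / t ^ 2 + 1)) atTop (nhds (√l)) := by
      have := Tendsto.div (tendsto_const_nhds (x := √l) (f := atTop)) h1 (by simp)
      simpa [Pi.div_def] using this
    refine h2.congr' ?_
    filter_upwards [eventually_gt_atTop 0] with t ht
    simp only [hφ]
    have : l + t ^ 2 = t ^ 2 * (l / t ^ 2 + 1) := by field_simp
    rw [this, Real.sqrt_mul (by positivity), Real.sqrt_sq ht.le]
    field_simp
  have hGt : Tendsto G atTop (nhds (erfInt l b)) := by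
    have hcont : Continuous (fun u : ℝ => ∫ z in (0:ℝ)..u, Real.exp (-(b ^ 2 * z ^ 2))) :=
      intervalIntegral.continuous_primitive (fun _ _ => hc.intervalIntegrable _ _) _
    exact ((hcont.tendsto _).comp htend).const_mul _
  have hint := integrableOn_Ioi_deriv_of_nonneg' (a := 0) (fun x _ => hG' x) (fun x _ => hnn x) hGt
  have hval := integral_Ioi_of_hasDerivAt_of_nonneg' (a := 0) (fun x _ => hG' x) (fun x _ => hnn x) hGt
  rw [← ofReal_integral_eq_lintegral_ofReal hint (ae_of_all _ hnn), hval]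
  simp [hG, hφ]

/-- Gaussian integral over `ℝ³`. -/
lemma lintegral_gauss3 {c : ℝ} (hc : 0 < c) (a : Fin 3 → ℝ) :
    ∫⁻ x : Fin 3 → ℝ, ENNReal.ofReal (Real.exp (-(c * nsq (x - a))))
      = ENNReal.ofReal ((π / c) ^ (3/2 : ℝ)) := by
  have h1 : ∀ x : Fin 3 → ℝ, Real.exp (-(c * nsq (x - a)))
      = ∏ i, Real.exp (-c * (x i - a i) ^ 2) := by
    intro x
    rw [← Real.exp_sum, nsq, Finset.mul_sum, ← Finset.sum_neg_distrib]
    congr 1
    apply Finset.sum_congr rfl
    intro i _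
    simp only [Pi.sub_apply]; ring
  have hi : ∀ i, Integrable (fun y : ℝ => Real.exp (-c * (y - a i) ^ 2)) := fun i =>
    (integrable_exp_neg_mul_sq hc).comp_sub_right (a i)
  have hint : Integrable (fun x : Fin 3 → ℝ => ∏ i, Real.exp (-c * (x i - a i) ^ 2)) :=
    Integrable.fintype_prod (f := fun i (y : ℝ) => Real.exp (-c * (y - a i) ^ 2)) hi
  simp_rw [h1]
  rw [← ofReal_integral_eq_lintegral_ofReal hint (ae_of_all _ fun x => by positivity)]
  congr 1
  rw [integral_fintype_prod_volume_eq_prod (fun i (y : ℝ) => Real.exp (-c * (y - a i) ^ 2))]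
  have h2 : ∀ i, ∫ y : ℝ, Real.exp (-c * (y - a i) ^ 2) = √(π / c) := by
    intro i
    rw [integral_sub_right_eq_self (fun y : ℝ => Real.exp (-c * y ^ 2)) (a i)]
    exact integral_gaussian c
  simp_rw [h2]
  rw [Finset.prod_const, Finset.card_univ, Fintype.card_fin, rpow_three_halves (by positivity)]

/-- The harmonic prior smoothed by a Gaussian. -/
lemma lintegral_harmonic {l : ℝ} (hl : 0 < l) (a : Fin 3 → ℝ) :
    ∫⁻ x : Fin 3 → ℝ, ENNReal.ofReal (nsq x ^ (-(1/2) : ℝ) * Real.exp (-(l * nsq (x - a))))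
      = ENNReal.ofReal ((π / l) ^ (3/2 : ℝ) * erfInt l (√(nsq a))) := by
  have hpi : 0 < √π := Real.sqrt_pos.mpr pi_pos
  have hne : ∀ᵐ x : Fin 3 → ℝ, x ≠ 0 := by
    have : (volume : Measure (Fin 3 → ℝ)) {0} = 0 := measure_singleton 0
    exact compl_mem_ae_iff.mpr this
  have hrep : ∀ x : Fin 3 → ℝ, x ≠ 0 → ENNReal.ofReal (nsq x ^ (-(1/2) : ℝ)) =
      ∫⁻ t in Ioi (0:ℝ), ENNReal.ofReal (2 / √π * Real.exp (-(t ^ 2 * nsq x))) := by
    intro x hx
    have hpos : 0 < nsq x := by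
      rcases (nsq_nonneg x).eq_or_lt with h | h
      · exfalso; apply hx
        funext i
        have := (Finset.sum_eq_zero_iff_of_nonneg (fun i _ => sq_nonneg (x i))).mp h.symm i
          (Finset.mem_univ i)
        simpa using this
      · exact h
    have h1 := integral_gaussian_Ioi (nsq x)
    have hint : IntegrableOn (fun t : ℝ => Real.exp (-nsq x * t ^ 2)) (Ioi 0) :=
      (integrable_exp_neg_mul_sq hpos).integrableOn
    have e : (fun t : ℝ => 2 / √π * Real.exp (-(t ^ 2 * nsq x)))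
        = fun t => 2 / √π * Real.exp (-nsq x * t ^ 2) := by funext t; ring_nf
    have e2 : ∫⁻ t in Ioi (0:ℝ), ENNReal.ofReal (2 / √π * Real.exp (-(t ^ 2 * nsq x)))
        = ∫⁻ t in Ioi (0:ℝ), ENNReal.ofReal (2 / √π * Real.exp (-nsq x * t ^ 2)) := by
      congr 1
      funext t
      rw [congrFun e t]
    rw [e2]
    rw [← ofReal_integral_eq_lintegral_ofReal (hint.const_mul _) (ae_of_all _ fun t => by positivity),
      integral_const_mul, h1]
    congr 1
    rw [Real.sqrt_div pi_pos.le, Real.rpow_neg hpos.le, ← Real.sqrt_eq_rpow]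
    field_simp
  calc ∫⁻ x : Fin 3 → ℝ, ENNReal.ofReal (nsq x ^ (-(1/2) : ℝ) * Real.exp (-(l * nsq (x - a))))
      = ∫⁻ x : Fin 3 → ℝ, ∫⁻ t in Ioi (0:ℝ), ENNReal.ofReal (2 / √π * Real.exp (-(t ^ 2 * nsq x))
          * Real.exp (-(l * nsq (x - a)))) := by
        apply lintegral_congr_ae
        filter_upwards [hne] with x hx
        rw [ENNReal.ofReal_mul (Real.rpow_nonneg (nsq_nonneg x) _), hrep x hx,
          ← lintegral_mul_const' _ _ ENNReal.ofReal_ne_top]
        apply lintegral_congr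
        intro t
        rw [← ENNReal.ofReal_mul (by positivity)]
    _ = ∫⁻ t in Ioi (0:ℝ), ∫⁻ x : Fin 3 → ℝ, ENNReal.ofReal (2 / √π * Real.exp (-(t ^ 2 * nsq x))
          * Real.exp (-(l * nsq (x - a)))) := by
        apply lintegral_lintegral_swap
        apply Measurable.aemeasurable
        apply ENNReal.measurable_ofReal.comp
        simp only [nsq]
        fun_prop
    _ = ∫⁻ t in Ioi (0:ℝ), ENNReal.ofReal ((π / l) ^ (3/2 : ℝ)) *
          ENNReal.ofReal (2 / √π * (l / (l + t ^ 2)) ^ (3/2 : ℝ) *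
            Real.exp (-(l * t ^ 2 / (l + t ^ 2) * √(nsq a) ^ 2))) := by
        apply setLIntegral_congr_fun measurableSet_Ioi
        intro t _
        have hp : 0 < l + t ^ 2 := by positivity
        have e : ∀ x : Fin 3 → ℝ, 2 / √π * Real.exp (-(t ^ 2 * nsq x)) * Real.exp (-(l * nsq (x - a)))
            = (2 / √π * Real.exp (-(l * t ^ 2 / (l + t ^ 2) * nsq a))) *
              Real.exp (-((l + t ^ 2) * nsq (x - (l / (l + t ^ 2)) • a))) := by
          intro x
          rw [mul_assoc, mul_assoc, ← Real.exp_add, ← Real.exp_add]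
          congr 2
          simp only [nsq, Fin.sum_univ_three, Pi.sub_apply, Pi.smul_apply, smul_eq_mul]
          field_simp
          ring
        simp_rw [e]
        rw [show (fun x : Fin 3 → ℝ => ENNReal.ofReal ((2 / √π * Real.exp (-(l * t ^ 2 / (l + t ^ 2) * nsq a))) *
              Real.exp (-((l + t ^ 2) * nsq (x - (l / (l + t ^ 2)) • a)))))
            = fun x => ENNReal.ofReal (2 / √π * Real.exp (-(l * t ^ 2 / (l + t ^ 2) * nsq a))) *
              ENNReal.ofReal (Real.exp (-((l + t ^ 2) * nsq (x - (l / (l + t ^ 2)) • a)))) from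
            funext fun x => ENNReal.ofReal_mul (by positivity)]
        rw [lintegral_const_mul' _ _ ENNReal.ofReal_ne_top, lintegral_gauss3 hp,
          ← ENNReal.ofReal_mul (by positivity), ← ENNReal.ofReal_mul (by positivity)]
        congr 1
        rw [Real.sq_sqrt (nsq_nonneg a)]
        have : (π / (l + t ^ 2)) ^ (3/2 : ℝ) = (π / l) ^ (3/2 : ℝ) * (l / (l + t ^ 2)) ^ (3/2 : ℝ) := by
          rw [← Real.mul_rpow (by positivity) (by positivity)]
          congr 1
          field_simp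
        rw [this]; ring
    _ = _ := by
        rw [lintegral_const_mul' _ _ ENNReal.ofReal_ne_top, lintegral_erfInt hl,
          ← ENNReal.ofReal_mul (by positivity)]

end

end Pool.Agent.Shrink
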